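import Mathlib
import Pool.Agent.H26.Homog12
import Pool.Agent.H26.Homog30

set_option autoImplicit false

namespace Pool.Agent.Results.MP_11217e_co.Twelve

open Pool.Agent.H26

def IsLatin {α : Type} (L : α → α → α) : Prop :=
  (∀ r, Function.Bijective (fun c => L r c)) ∧ (∀ c, Function.Bijective (fun r => L r c))

def Homogeneous {α : Type} (h : ℕ) (L : α → α → α) : Prop :=
  ∀ r c : α, Set.ncard {p : α × α | p.1 ≠ r ∧ p.2 ≠ c ∧ L r c = L p.1 p.2 ∧
    L r p.2 = L p.1 c} = h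

theorem lift (m k : ℕ) (hk : Odd k) (T : Fin m → Fin m → Fin m)
    (hr : ∀ r, Function.Bijective (T r)) (hc : ∀ c, Function.Bijective (fun r => T r c))
    (hn : ∀ r c : Fin m, Set.ncard {q : Fin m × Fin m |
      q.1 ≠ r ∧ q.2 ≠ c ∧ T r c = T q.1 q.2 ∧ T r q.2 = T q.1 c} = 4) :
    ∃ L : Fin (m * k) → Fin (m * k) → Fin (m * k), IsLatin L ∧ Homogeneous 4 L := by
  haveI : NeZero k := ⟨by rintro rfl; exact absurd hk (by decide)⟩
  have e : Fin (m * k) ≃ Fin m × ZMod k := Fintype.equivOfCardEq (by simp)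
  let M : Fin m × ZMod k → Fin m × ZMod k → Fin m × ZMod k :=
    fun r c => (T r.1 c.1, r.2 + c.2)
  refine ⟨fun r c => e.symm (M (e r) (e c)), ⟨fun r => ?_, fun c => ?_⟩, fun r c => ?_⟩
  · exact e.symm.bijective.comp ((Homog.lift_row T k hr (e r)).comp e.bijective)
  · exact e.symm.bijective.comp ((Homog.lift_col T k hc (e c)).comp e.bijective)
  · rw [← hn (e r).1 (e c).1, ← Homog.lift_cnt T k hk (e r) (e c),
      ← Set.ncard_image_of_injective _ (e.prodCongr e).injective]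
    congr 1
    ext ⟨a, b⟩
    obtain ⟨a, rfl⟩ := e.surjective a
    obtain ⟨b, rfl⟩ := e.surjective b
    rw [show ((e a, e b) : (Fin m × ZMod k) × (Fin m × ZMod k)) = (e.prodCongr e) (a, b) from rfl,
      (e.prodCongr e).injective.mem_set_image]
    simp only [Set.mem_setOf_eq, Equiv.prodCongr_apply, Prod.map, ne_eq,
      e.injective.eq_iff, e.symm.injective.eq_iff, M]

theorem result : ∀ m k : ℕ, (m = 12 ∨ m = 30) → Odd k → ¬ 8 ∣ m * k ∧
    ∃ L : Fin (m * k) → Fin (m * k) → Fin (m * k), IsLatin L ∧ Homogeneous 4 L := by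
  intro m k hm hk
  rcases hm with rfl | rfl
  · exact ⟨by obtain ⟨j, rfl⟩ := hk; omega,
      lift 12 k hk Homog12.T Homog12.row Homog12.col Homog12.cnt⟩
  · exact ⟨by obtain ⟨j, rfl⟩ := hk; omega,
      lift 30 k hk Homog30.T Homog30.row Homog30.col Homog30.cnt⟩

end Pool.Agent.Results.MP_11217e_co.Twelve
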